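import Mathlib

set_option autoImplicit false

open scoped InnerProductSpace

namespace Pool.Agent.H920Z.PC

universe u v

/-- every non-identity conjugacy class is infinite -/
def ICC (G : Type) [Group G] : Prop :=
  ∀ g : G, g ≠ 1 → {k : G | ∃ h : G, k = h * g * h⁻¹}.Infinite

/-- there is a conjugation invariant finitely additive probability measure on the subsets of
`G` minus the identity -/
def InnerAmenable (G : Type) [Group G] : Prop :=
  ∃ m : Set G → ℝ,
    (∀ A : Set G, (1 : G) ∉ A → 0 ≤ m A) ∧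
    (∀ A B : Set G, (1 : G) ∉ A → (1 : G) ∉ B → Disjoint A B → m (A ∪ B) = m A + m B) ∧
    m {g | g ≠ 1} = 1 ∧
    ∀ (h : G) (A : Set G), (1 : G) ∉ A → m ((fun g => h * g * h⁻¹) '' A) = m A

/-- the matrix algebra `M_n`, as operators on Euclidean space -/
abbrev MOp (n : ℕ) : Type := EuclideanSpace ℂ (Fin n) →L[ℂ] EuclideanSpace ℂ (Fin n)

/-- bounded families of bounded sequences of matrices: representatives of elements of an
ultrapower of a matrix ultraproduct -/
def BM {J : Type v} (y : J → (n : ℕ) → MOp n) : Prop := ∃ C : ℝ, ∀ j n, ‖y j n‖ ≤ C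

/-- equality in the ultrapower along `U₂` of the matrix ultraproduct along `U` (normalised
Hilbert-Schmidt norms) -/
def EqM {J : Type v} (U₂ : Ultrafilter J) (U : Ultrafilter ℕ) (y y' : J → (n : ℕ) → MOp n) :
    Prop :=
  ∀ ε : ℝ, 0 < ε → ∀ᶠ j in (U₂ : Filter J), ∀ᶠ n in (U : Filter ℕ),
    (∑ k : Fin n, ‖(y j n - y' j n) (EuclideanSpace.single k (1 : ℂ))‖ ^ 2) / (n : ℝ) < ε

section

variable {E : Type} [NormedAddCommGroup E] [InnerProductSpace ℂ E] [CompleteSpace E]

/-- the bicommutant of the left translation operators, for a Hilbert space `E` whose vectors `f`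
are read as functions `ev f` on `G` -/
def LGen {G : Type} [Group G] (ev : E → G → ℂ) : Set (E →L[ℂ] E) :=
  Set.centralizer (Set.centralizer
    {T : E →L[ℂ] E | ∃ g : G, ∀ (f : E) (h : G), ev (T f) h = ev f (g⁻¹ * h)})

/-- bounded families in `N`: representatives of elements of an ultrapower of `N` -/
def BN (N : Set (E →L[ℂ] E)) {I : Type u} (x : I → (E →L[ℂ] E)) : Prop :=
  (∀ i, x i ∈ N) ∧ ∃ C : ℝ, ∀ i, ‖x i‖ ≤ C

/-- equality in the tracial ultrapower; the 2-norm of `a` is the norm of `a ξ`, where `ξ` is the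
trace vector -/
def EqN (ξ : E) {I : Type u} (U₁ : Ultrafilter I) (x x' : I → (E →L[ℂ] E)) : Prop :=
  ∀ ε : ℝ, 0 < ε → ∀ᶠ i in (U₁ : Filter I), ‖(x i - x' i) ξ‖ < ε

variable (N : Set (E →L[ℂ] E)) (ξ : E) {I : Type u} {J : Type v} (U₁ : Ultrafilter I)
  (U₂ : Ultrafilter J) (U : Ultrafilter ℕ) (Φ : (I → (E →L[ℂ] E)) → (J → (n : ℕ) → MOp n))

/-- `Φ` induces a bijection between the two ultrapowers -/
def Bij : Prop :=
  (∀ x, BN N x → BM (Φ x)) ∧
  (∀ x x', BN N x → BN N x' → (EqN ξ U₁ x x' ↔ EqM U₂ U (Φ x) (Φ x'))) ∧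
  ∀ y, BM y → ∃ x, BN N x ∧ EqM U₂ U (Φ x) y

/-- `Φ` respects sums -/
def PAdd : Prop := ∀ x x', BN N x → BN N x' → EqM U₂ U (Φ (x + x')) (Φ x + Φ x')

/-- `Φ` respects products -/
def PMul : Prop := ∀ x x', BN N x → BN N x' → EqM U₂ U (Φ (x * x')) (Φ x * Φ x')

/-- `Φ` respects adjoints -/
def PStar : Prop := ∀ x, BN N x → EqM U₂ U (Φ (star x)) (star (Φ x))

/-- `Φ` respects scalar multiples -/
def PSmul : Prop := ∀ x, BN N x → ∀ c : ℂ, EqM U₂ U (Φ (c • x)) (c • Φ x)

/-- the ultrapower along `U₁` of `N` (with trace vector `ξ`) is star isomorphic to the ultrapower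
along `U₂` of the matrix ultraproduct along `U` -/
def Iso : Prop :=
  ∃ Φ : (I → (E →L[ℂ] E)) → (J → (n : ℕ) → MOp n),
    Bij N ξ U₁ U₂ U Φ ∧ PAdd N U₂ U Φ ∧ PMul N U₂ U Φ ∧ PStar N U₂ U Φ ∧ PSmul N U₂ U Φ

end

open Classical in
/-- an ultrapower of `L(G)` (acting on the square summable functions on `G`, with the point mass
at the identity as trace vector) is star isomorphic to an ultrapower of the matrix ultraproduct -/
def IsoLG (G : Type) [Group G] {I : Type u} {J : Type v} (U₁ : Ultrafilter I)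
    (U₂ : Ultrafilter J) (U : Ultrafilter ℕ) : Prop :=
  Iso (LGen fun (f : lp (fun _ : G => ℂ) 2) (h : G) => f h) (lp.single 2 (1 : G) (1 : ℂ)) U₁ U₂ U

end Pool.Agent.H920Z.PC
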