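import Pool.Agent.H920Z.PC.Main
import Pool.Agent.H304Z.NH.Pieces
import Pool.Agent.H923Z.GRMain

set_option autoImplicit false

namespace Pool.Agent.H920Z.PC

universe u v

theorem final : ∃ (G : Type) (_ : Group G), Infinite G ∧ ICC G ∧ ¬ InnerAmenable G ∧
    ∀ U : Ultrafilter ℕ, (U : Filter ℕ) ≤ Filter.cofinite →
      ∀ (I : Type u) (J : Type v) (U₁ : Ultrafilter I) (U₂ : Ultrafilter J),
        ¬ IsoLG G U₁ U₂ U := by
  obtain ⟨G, inst, S, θ, t, c, h1, h2, h3, h4, h5, h6⟩ := Pool.Agent.H923Z.GR.gr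
  have h := Pool.Agent.H304Z.NH.t_fin G S θ t c h1 h2 h3 h4 h5 h6
  have hi : Infinite G := Set.infinite_univ_iff.1 (h6.mono (Set.subset_univ _))
  exact ⟨FP G, inferInstance, Infinite.of_injective _ (emb_inj true), icc, not_inner,
    fun U hU I J U₁ U₂ hΦ => h (hyp_of_iso (emb true) (emb_inj true) U₁ U₂ U hU hΦ)⟩

end Pool.Agent.H920Z.PC
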