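import Pool.Agent.H920Z.PC.Defs

set_option autoImplicit false

namespace Pool.Agent.H920Z.PC

open Monoid Monoid.CoprodI

variable {H : Type} [Group H]

/-- the free product of two copies of `H` -/
abbrev FP (H : Type) [Group H] : Type := CoprodI fun _ : Bool => H

/-- the embedding of the `i`-th factor -/
def emb (i : Bool) : H →* FP H := CoprodI.of (M := fun _ : Bool => H) (i := i)

/-- elements whose normal form starts with the letter `a` of the factor `i` -/
def St (i : Bool) (a : H) : Set (FP H) :=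
  {w | ∃ (k : Bool) (nw : NeWord (fun _ : Bool => H) i k), nw.prod = w ∧ nw.head = a}

theorem split {i j : Bool} (w : NeWord (fun _ : Bool => H) i j) :
    (i = j ∧ w.prod = emb i w.head) ∨
      ∃ (k : Bool) (w' : NeWord (fun _ : Bool => H) k j), k ≠ i ∧ w.prod = emb i w.head * w'.prod := by
  induction w with
  | singleton x h => left; exact ⟨rfl, by simp [emb]⟩
  | append w₁ hne w₂ ih₁ _ =>
    right
    rcases ih₁ with ⟨e, h⟩ | ⟨k, w', hk, h⟩
    · subst e
      exact ⟨_, w₂, hne.symm, by simp [h]⟩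
    · exact ⟨k, .append w' hne w₂, hk, by simp [h, mul_assoc]⟩

theorem St_uniq {i i' : Bool} {a a' : H} {w : FP H} (h : w ∈ St i a) (h' : w ∈ St i' a') :
    i = i' ∧ a = a' := by
  classical
  obtain ⟨k, nw, e1, e2⟩ := h
  obtain ⟨k', nw', e1', e2'⟩ := h'
  have e : nw.toWord = nw'.toWord :=
    (Word.equiv (M := fun _ : Bool => H)).symm.injective (e1.trans e1'.symm)
  have e3 : nw.toList = nw'.toList := congrArg Word.toList e
  have e4 := nw.toList_head?
  rw [e3, nw'.toList_head?, e2, e2'] at e4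
  have e5 := Option.some.inj e4
  exact ⟨(congrArg Sigma.fst e5).symm, (congrArg (fun s : Σ _ : Bool, H => s.2) e5).symm⟩

theorem St_ne {i : Bool} {a : H} {w : FP H} (h : w ∈ St i a) : w ≠ 1 := by
  classical
  obtain ⟨k, nw, e1, -⟩ := h
  intro e
  have e2 : nw.toWord = Word.empty :=
    (Word.equiv (M := fun _ : Bool => H)).symm.injective (e1.trans e)
  exact nw.toList_ne_nil (congrArg Word.toList e2)

theorem St_ex {w : FP H} (h : w ≠ 1) : ∃ i a, w ∈ St i a := by
  classical
  have h1 : Word.equiv (M := fun _ : Bool => H) w ≠ Word.empty := fun e => h (by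
    have := congrArg (Word.equiv (M := fun _ : Bool => H)).symm e
    rw [Equiv.symm_apply_apply] at this
    exact this)
  obtain ⟨i, j, w', e⟩ := NeWord.of_word _ h1
  refine ⟨i, w'.head, j, w', ?_, rfl⟩
  have := congrArg (Word.equiv (M := fun _ : Bool => H)).symm e
  rw [Equiv.symm_apply_apply] at this
  exact this

theorem St_conj {i j : Bool} (hij : i ≠ j) {a b : H} (ha : a ≠ 1) {w : FP H} (h : w ∈ St j b) :
    emb i a * w * (emb i a)⁻¹ ∈ St i a := by
  obtain ⟨k, nw, rfl, -⟩ := h
  have key : ∃ (l : Bool) (w' : NeWord (fun _ : Bool => H) j l),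
      w'.prod = nw.prod * (emb i a)⁻¹ := by
    by_cases hk : k = i
    · subst hk
      by_cases h1 : a * nw.inv.head = 1
      · rcases split nw.inv with ⟨e, -⟩ | ⟨l, w', hl, e⟩
        · exact (hij e).elim
        · refine ⟨l, w'.inv, ?_⟩
          rw [NeWord.inv_prod] at e
          have e2 : w'.prod = emb k a * nw.prod⁻¹ := by
            rw [e, ← mul_assoc, ← map_mul, h1, map_one, one_mul]
          rw [NeWord.inv_prod, e2, mul_inv_rev, inv_inv]
      · refine ⟨k, (nw.inv.mulHead a h1).inv, ?_⟩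
        simp [emb]
    · exact ⟨i, .append nw hk (.singleton a⁻¹ (inv_ne_one.2 ha)), by simp [emb]⟩
  obtain ⟨l, w', e⟩ := key
  exact ⟨l, .append (.singleton a ha) hij w', by simp [e, emb, mul_assoc], rfl⟩

theorem icc [Infinite H] : ICC (FP H) := by
  intro g hg
  obtain ⟨j, b, hb⟩ := St_ex hg
  have hinf : {a : H | a ≠ 1}.Infinite := (Set.finite_singleton (1 : H)).infinite_compl
  refine Set.infinite_of_injOn_mapsTo (f := fun a : H => emb (!j) a * g * (emb (!j) a)⁻¹)
    (fun a ha a' ha' e => ?_) (fun a _ => ⟨_, rfl⟩) hinf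
  have h1 := St_conj (i := !j) (by simp) ha hb
  have h2 := St_conj (i := !j) (by simp) ha' hb
  simp only at e
  rw [e] at h1
  exact (St_uniq h1 h2).2

theorem not_inner [Infinite H] : ¬ InnerAmenable (FP H) := by
  rintro ⟨m, h0, hadd, h1, hinv⟩
  let S : Bool → Set (FP H) := fun i => {w | ∃ a, w ∈ St i a}
  have hS : ∀ i, (1 : FP H) ∉ S i := fun i ⟨a, h⟩ => St_ne h rfl
  have mono : ∀ A B : Set (FP H), (1 : FP H) ∉ B → A ⊆ B → m A ≤ m B := fun A B hB hAB => by
    have := hadd A (B \ A) (fun h => hB (hAB h)) (fun h => hB h.1) Set.disjoint_sdiff_right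
    rw [Set.union_diff_cancel hAB] at this
    have := h0 (B \ A) fun h => hB h.1
    linarith
  have hinf : {a : H | a ≠ 1}.Infinite := (Set.finite_singleton (1 : H)).infinite_compl
  obtain ⟨a, ha, a', ha', hne⟩ := hinf.nontrivial
  have key : ∀ i j, i ≠ j → 2 * m (S j) ≤ m (S i) := fun i j hij => by
    have sub : ∀ c : H, c ≠ 1 → (fun g => emb i c * g * (emb i c)⁻¹) '' S j ⊆ St i c := by
      rintro c hc _ ⟨w, ⟨b, hb⟩, rfl⟩
      exact St_conj hij hc hb
    have n1 := fun h => St_ne (sub a ha h) (rfl : (1 : FP H) = 1)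
    have n2 := fun h => St_ne (sub a' ha' h) (rfl : (1 : FP H) = 1)
    have e := hadd _ _ n1 n2 (Set.disjoint_left.2 fun w hw hw' =>
      hne (St_uniq (sub a ha hw) (sub a' ha' hw')).2)
    rw [hinv _ _ (hS j), hinv _ _ (hS j)] at e
    have := mono _ (S i) (hS i)
      (Set.union_subset (fun w hw => ⟨a, sub a ha hw⟩) fun w hw => ⟨a', sub a' ha' hw⟩)
    linarith
  have e : {g : FP H | g ≠ 1} = S true ∪ S false := by
    ext w
    constructor
    · intro hw
      obtain ⟨i, b, hb⟩ := St_ex hw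
      cases i
      · exact Or.inr ⟨b, hb⟩
      · exact Or.inl ⟨b, hb⟩
    · rintro (⟨b, hb⟩ | ⟨b, hb⟩) <;> exact St_ne hb
  rw [e, hadd _ _ (hS _) (hS _) (Set.disjoint_left.2 fun w ⟨b, hb⟩ ⟨b', hb'⟩ => by
    simpa using (St_uniq hb hb').1)] at h1
  have a1 := key true false (by simp)
  have a2 := key false true (by simp)
  have a3 := h0 _ (hS true)
  linarith

theorem emb_inj (i : Bool) : Function.Injective (emb (H := H) i) := CoprodI.of_injective i

end Pool.Agent.H920Z.PC
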