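import Pool.Agent.H304Z.NH.Basic
import Pool.Agent.H411Z.NH.CLAM

set_option autoImplicit false
set_option linter.unusedSectionVars false

namespace Pool.Agent.H920Z.PC

open Matrix Finset Pool.Agent.H304Z.NH
open scoped MatrixOrder ComplexOrder

section

variable {n : Type} [Fintype n] [DecidableEq n]

theorem nsq_cont : Continuous fun x : Mat n => nsq x := by
  unfold nsq tr
  fun_prop

theorem polar_unit {Y : Mat n} (hY : IsUnit Y) :
    ∃ U : Mat n, IsU U ∧ nsq (Y - U) ≤ nsq (Yᴴ * Y - 1) := by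
  have h0 : 0 ≤ Yᴴ * Y := star_mul_nonneg Y
  set P : Mat n := CFC.sqrt (Yᴴ * Y) with hP
  have hP0 : 0 ≤ P := CFC.sqrt_nonneg _
  have hPP : P * P = Yᴴ * Y := CFC.sqrt_mul_sqrt_self _ h0
  have hPh : Pᴴ = P := herm hP0
  have hu : IsUnit (P * P) := by
    rw [hPP]; exact (IsUnit.star hY).mul hY
  have hPu : IsUnit P := by
    rw [Matrix.isUnit_iff_isUnit_det] at hu ⊢
    rw [det_mul] at hu
    exact isUnit_of_mul_isUnit_left hu
  have hd : IsUnit P.det := (Matrix.isUnit_iff_isUnit_det _).1 hPu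
  have i1 : P⁻¹ * P = 1 := Matrix.nonsing_inv_mul _ hd
  have i2 : P * P⁻¹ = 1 := Matrix.mul_nonsing_inv _ hd
  have hih : (P⁻¹)ᴴ = P⁻¹ := by rw [conjTranspose_nonsing_inv, hPh]
  have hU1 : (Y * P⁻¹)ᴴ * (Y * P⁻¹) = 1 := by
    rw [conjTranspose_mul, hih, Matrix.mul_assoc, ← Matrix.mul_assoc Yᴴ, ← hPP,
      ← Matrix.mul_assoc, ← Matrix.mul_assoc, i1, Matrix.one_mul, i2]
  have hU : IsU (Y * P⁻¹) := ⟨hU1, mul_eq_one_comm.1 hU1⟩
  refine ⟨Y * P⁻¹, hU, ?_⟩
  have e1 : Y - Y * P⁻¹ = (Y * P⁻¹) * (P - 1) := by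
    rw [Matrix.mul_sub, Matrix.mul_one, Matrix.mul_assoc, i1, Matrix.mul_one]
  have e2 : Yᴴ * Y - 1 = (P - 1) * (P + 1) := by rw [← hPP]; noncomm_ring
  rw [e1, nsq_U_mul hU, e2, nsq_mul]
  have e3 : (1 : Mat n) ≤ (P + 1) * (P + 1)ᴴ := by
    rw [conjTranspose_add, hPh, conjTranspose_one, ← sub_nonneg]
    have : (P + 1) * (P + 1) - 1 = P * P + P + P := by noncomm_ring
    rw [this, hPP]
    exact add_nonneg (add_nonneg h0 hP0) hP0
  have := tr_mul_le (star_mul_nonneg (P - 1)) e3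
  rwa [Matrix.mul_one] at this

theorem near_unitary {Y : Mat n} {β : ℝ} (h : nsq (Yᴴ * Y - 1) < β) :
    ∃ U : Mat n, IsU U ∧ nsq (Y - U) < 2 * β := by
  let f : ℂ → ℝ := fun t => 2 * nsq (t • (1 : Mat n)) +
    2 * nsq ((Y - t • (1 : Mat n))ᴴ * (Y - t • (1 : Mat n)) - 1)
  have hf : Continuous f := by
    refine (continuous_const.mul (nsq_cont.comp (by fun_prop))).add
      (continuous_const.mul (nsq_cont.comp (by fun_prop)))
  have h1 : ∀ᶠ t in nhds (0 : ℂ), f t < 2 * β := by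
    apply hf.continuousAt.eventually_lt continuousAt_const
    simp only [f, zero_smul, sub_zero, nsq_zero]
    linarith
  have h2 : {t : ℂ | f t < 2 * β}.Infinite := infinite_of_mem_nhds 0 h1
  obtain ⟨t, ht, hs⟩ := h2.exists_notMem_finite (Matrix.finite_spectrum Y)
  have hu : IsUnit (Y - t • (1 : Mat n)) := by
    rw [spectrum.notMem_iff, Algebra.algebraMap_eq_smul_one] at hs
    simpa using hs.neg
  obtain ⟨U, hU, hle⟩ := polar_unit hu
  refine ⟨U, hU, lt_of_le_of_lt ?_ ht⟩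
  have := nsq_add_le (t • (1 : Mat n)) (Y - t • (1 : Mat n) - U)
  rw [show t • (1 : Mat n) + (Y - t • (1 : Mat n) - U) = Y - U by abel] at this
  simp only [f]
  linarith

end

open Pool.Agent.H411Z.NH in
theorem Q_of {G : Type} [Group G] (W : Finset G) (c C : ℝ) (hc : 0 < c) (hc1 : c ≤ 1) (hC : 0 ≤ C)
    (H : ∀ η : ℝ, 0 < η → ∃ (n : ℕ) (Y : G → Mat (Fin n)), 1 ≤ n ∧ nsq (Y 1 - 1) < η * n ∧
      ∀ g ∈ W, (∀ x, nsq (Y g * x) ≤ C * nsq x) ∧ nsq ((Y g)ᴴ * Y g - 1) < η * n ∧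
        ∀ h ∈ W, nsq ((Y (g * h))ᴴ * Y (g * h) - 1) < η * n ∧
          nsq (Y g * Y h - Y (g * h)) < η * n ∧ (g ≠ h → c * n ≤ nsq (Y g - Y h))) :
    Q G W (1 - c / 32) := by
  classical
  intro δ hδ
  set η := min (δ / (4 * (5 + 2 * C))) (c / 48) with hη
  have hη0 : 0 < η := lt_min (by positivity) (by positivity)
  have hη1 : η * (4 * (5 + 2 * C)) ≤ δ := (le_div_iff₀ (by positivity)).1 (min_le_left _ _)
  have hη2 : η ≤ c / 48 := min_le_right _ _
  obtain ⟨n, Y, hn, hY1, hY⟩ := H η hη0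
  have hn' : (0 : ℝ) < n := by exact_mod_cast hn
  have ex : ∀ g, ∃ U : Mat (Fin n), IsU U ∧ (g = 1 → U = 1) ∧
      (nsq ((Y g)ᴴ * Y g - 1) < η * n → nsq (Y g - U) < 2 * (η * n)) := fun g => by
    have one : IsU (1 : Mat (Fin n)) := ⟨by simp, by simp⟩
    by_cases h1 : g = 1
    · refine ⟨1, one, fun _ => rfl, fun _ => ?_⟩
      rw [h1]
      have : 0 < η * n := by positivity
      linarith
    · by_cases h2 : nsq ((Y g)ᴴ * Y g - 1) < η * n
      · obtain ⟨U, hU, h3⟩ := near_unitary h2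
        exact ⟨U, hU, fun e => (h1 e).elim, fun _ => h3⟩
      · exact ⟨1, one, fun _ => rfl, fun e => (h2 e).elim⟩
  choose φ hU h1 hcl using ex
  have : Nonempty (Fin n) := ⟨⟨0, hn⟩⟩
  refine ⟨Fin n ⊕ Fin n, inferInstance, inferInstance, inferInstance,
    fun g => fromBlocks (φ g) 0 0 1, fun g => ?_, ?_, fun g hg h hh => ?_⟩
  · constructor
    · rw [fromBlocks_conjTranspose, fromBlocks_multiply]
      simp [(hU g).1]
    · rw [fromBlocks_conjTranspose, fromBlocks_multiply]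
      simp [(hU g).2]
  · simp [h1 1 rfl]
  obtain ⟨b1, b2, b3⟩ := hY g hg
  obtain ⟨b4, b5, b6⟩ := b3 h hh
  have c1 := hcl g b2
  have c2 := hcl h (hY h hh).2.1
  have c3 := hcl _ b4
  refine ⟨?_, fun hne => ?_⟩
  · have e : df (fun g => (fromBlocks (φ g) 0 0 1 : Mat (Fin n ⊕ Fin n))) g h
        = fromBlocks (φ g * φ h - φ (g * h)) 0 0 0 := by
      simp only [df]
      rw [fromBlocks_multiply]
      ext (i | i) (j | j) <;> simp
    have e2 : nsq (fromBlocks (φ g * φ h - φ (g * h)) 0 0 0 : Mat (Fin n ⊕ Fin n))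
        = nsq (φ g * φ h - φ (g * h)) := by
      simp [H411Z.NH.nsq_eq, Fintype.sum_sum_type]
    rw [e, e2]
    have e3 : φ g * φ h - φ (g * h) = (φ g - Y g) * φ h + Y g * (φ h - Y h) +
        (Y g * Y h - Y (g * h)) + (Y (g * h) - φ (g * h)) := by noncomm_ring
    rw [e3]
    refine (nsq_add4_le _ _ _ _).trans ?_
    rw [H411Z.NH.nsq_mul_U (hU h), H411Z.NH.nsq_sub_comm (φ g)]
    have d1 := b1 (φ h - Y h)
    rw [H411Z.NH.nsq_sub_comm (φ h)] at d1
    have d2 : C * nsq (Y h - φ h) ≤ C * (2 * (η * n)) := mul_le_mul_of_nonneg_left c2.le hC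
    simp only [Fintype.card_sum, Fintype.card_fin]
    push_cast
    have d3 : η * (4 * (5 + 2 * C)) * n ≤ δ * n := mul_le_mul_of_nonneg_right hη1 hn'.le
    have d4 : 0 < δ * n := by positivity
    nlinarith
  · set v : Mat (Fin n) := (φ g)ᴴ * φ h with hv
    have hvU : IsU v := IsU_mul (IsU_star (hU g)) (hU h)
    have e : trace ((fromBlocks (φ g) 0 0 1 : Mat (Fin n ⊕ Fin n))ᴴ *
        (fromBlocks (φ h) 0 0 1 : Mat (Fin n ⊕ Fin n))) = trace v + n := by
      rw [fromBlocks_conjTranspose, fromBlocks_multiply]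
      simp [trace, Fintype.sum_sum_type, hv]
    have a1 := b6 hne
    have a2 := nsq_add3_le (Y g - φ g) (φ g - φ h) (φ h - Y h)
    rw [show Y g - φ g + (φ g - φ h) + (φ h - Y h) = Y g - Y h by abel,
      H411Z.NH.nsq_sub_comm (φ h)] at a2
    have a3 : nsq (φ g - φ h) = nsq (v - 1) := by
      rw [← H411Z.NH.nsq_U_mul (hU g) (v - 1), Matrix.mul_sub, hv, ← Matrix.mul_assoc, (hU g).2,
        Matrix.one_mul, Matrix.mul_one, H411Z.NH.nsq_sub_comm]
    rw [a3, nsq_sub_one hvU] at a2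
    have a5 := norm_trace_le hvU
    simp only [Fintype.card_fin] at a2 a5
    have a6 : η * n ≤ c / 48 * n := mul_le_mul_of_nonneg_right hη2 hn'.le
    have a7 : (trace v).re ≤ (1 - c / 8) * n := by nlinarith
    rw [e]
    simp only [Fintype.card_sum, Fintype.card_fin]
    push_cast
    refine (pow_le_pow_iff_left₀ (norm_nonneg _) (mul_nonneg (by linarith) (by positivity))
      two_ne_zero).1 ?_
    have a8 : ‖trace v‖ ^ 2 ≤ (n : ℝ) ^ 2 := pow_le_pow_left₀ (norm_nonneg _) a5 2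
    rw [Complex.sq_norm, Complex.normSq_apply] at a8 ⊢
    simp only [Complex.add_re, Complex.add_im, Complex.natCast_re, Complex.natCast_im, add_zero]
    have a9 : (trace v).re * n ≤ (1 - c / 8) * n * n := mul_le_mul_of_nonneg_right a7 hn'.le
    have a10 : 0 ≤ (c * n) ^ 2 := sq_nonneg _
    nlinarith

open Pool.Agent.H411Z.NH in
theorem hyp_of_Q {G : Type} [Group G] (H : ∀ W : Finset G, ∃ t : ℝ, 0 ≤ t ∧ t < 1 ∧ Q G W t) :
    IsHyp G := by
  intro A hA ε hε
  obtain ⟨t, ht0, ht1, hQ⟩ := H A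
  have hk : ∀ k : ℕ, Q G A (t ^ (2 ^ k)) := by
    intro k
    induction k with
    | zero => simpa using hQ
    | succ k ih => rw [pow_succ, pow_mul]; exact Q_sq ih
  obtain ⟨k, hk'⟩ := exists_pow_lt_of_lt_one (by norm_num : (0 : ℝ) < 1 / 2) ht1
  have h2 : t ^ (2 ^ k) ≤ 1 / 2 :=
    (pow_le_pow_of_le_one ht0 ht1.le (Nat.lt_two_pow_self).le).trans hk'.le
  obtain ⟨n, i1, i2, i3, u, hu, h1, H⟩ := hk k (ε ^ 2 / 2) (by positivity)
  let e := Fintype.equivFin n
  let r : Mat n ≃ₐ[ℂ] Mat (Fin (Fintype.card n)) := reindexAlgEquiv ℂ ℂ e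
  have rs : ∀ x, (r x)ᴴ = r xᴴ := fun x => by
    ext i j; simp [r]
  have rn : ∀ x, nsq (r x) = nsq x := fun x => by
    unfold nsq tr
    rw [rs, ← map_mul]
    congr 1
    simp only [r, trace, diag_apply, reindexAlgEquiv_apply, reindex_apply, submatrix_apply]
    exact e.symm.sum_comp (fun i => (xᴴ * x) i i)
  have hc : 0 < Fintype.card n := Fintype.card_pos
  have hc' : (0 : ℝ) < Fintype.card n := by exact_mod_cast hc
  refine ⟨Fintype.card n, hc, fun g => ⟨r (u g), ?_⟩, ?_, fun a ha b hb _ => ?_, fun a ha hne => ?_⟩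
  · rw [Matrix.mem_unitaryGroup_iff, star_eq_conjTranspose, rs, ← map_mul, (hu g).2, map_one]
  · ext1; simp [h1]
  · simp only
    rw [← map_mul, ← map_sub, rn, H411Z.NH.nsq_sub_comm, Real.sqrt_lt' hε, div_lt_iff₀ hc']
    have := (H a ha b hb).1
    simp only [df] at this
    have : 0 < ε ^ 2 * Fintype.card n := by positivity
    linarith
  · simp only
    rw [← map_one r, ← map_sub, rn, Real.one_le_sqrt, le_div_iff₀ hc', nsq_sub_one (hu a)]
    have a1 := (H 1 hA a ha).2 hne.symm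
    rw [h1, conjTranspose_one, Matrix.one_mul] at a1
    have a2 := Complex.re_le_norm (trace (u a))
    have a3 : t ^ (2 ^ k) * Fintype.card n ≤ 1 / 2 * Fintype.card n :=
      mul_le_mul_of_nonneg_right h2 hc'.le
    linarith

end Pool.Agent.H920Z.PC
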