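import Pool.Agent.H920Z.PC.Free
import Pool.Agent.H920Z.PC.Mats

set_option autoImplicit false

namespace Pool.Agent.H920Z.PC

open Filter Pool.Agent.H304Z.NH

universe u v

/-- unnormalised squared Hilbert-Schmidt norm -/
noncomputable def hs {n : ℕ} (T : MOp n) : ℝ :=
  ∑ k : Fin n, ‖T (EuclideanSpace.single k (1 : ℂ))‖ ^ 2

/-- the matrix of an operator -/
noncomputable def mat {n : ℕ} : MOp n ≃⋆ₐ[ℂ] Mat (Fin n) :=
  (Matrix.toEuclideanCLM (n := Fin n) (𝕜 := ℂ)).symm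

theorem hs_eq {n : ℕ} (T : MOp n) : hs T = nsq (mat T) := by
  obtain ⟨x, rfl⟩ : ∃ x, (mat (n := n)).symm x = T := ⟨mat T, (mat (n := n)).symm_apply_apply T⟩
  rw [StarAlgEquiv.apply_symm_apply, H411Z.NH.nsq_eq]
  refine Finset.sum_congr rfl fun k _ => ?_
  rw [EuclideanSpace.norm_sq_eq]
  refine Finset.sum_congr rfl fun i _ => ?_
  rw [Complex.sq_norm]
  congr 1
  change (Matrix.toEuclideanCLM (n := Fin n) (𝕜 := ℂ) x (EuclideanSpace.single k 1)) i = _
  simp

theorem hs_mul {n : ℕ} (S T : MOp n) {C : ℝ} (h : ‖S‖ ≤ C) : hs (S * T) ≤ C ^ 2 * hs T := by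
  unfold hs
  rw [Finset.mul_sum]
  refine Finset.sum_le_sum fun k _ => ?_
  rw [← mul_pow]
  refine pow_le_pow_left₀ (norm_nonneg _) ?_ 2
  exact (S.le_opNorm _).trans (mul_le_mul_of_nonneg_right h (norm_nonneg _))

theorem hs_nonneg {n : ℕ} (T : MOp n) : 0 ≤ hs T := Finset.sum_nonneg fun _ _ => by positivity

section small

variable {J : Type v} {U₂ : Ultrafilter J} {U : Ultrafilter ℕ}

/-- families that vanish in the ultrapower -/
def Small (U₂ : Ultrafilter J) (U : Ultrafilter ℕ) (z : J → (n : ℕ) → MOp n) : Prop :=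
  ∀ ε : ℝ, 0 < ε → ∀ᶠ p in (U₂ : Filter J).curry (U : Filter ℕ), hs (z p.1 p.2) / (p.2 : ℝ) < ε

theorem eqM_iff (y y' : J → (n : ℕ) → MOp n) : EqM U₂ U y y' ↔ Small U₂ U (y - y') := by
  simp only [EqM, Small, eventually_curry_iff]
  rfl

theorem Small.of_le {z z' : J → (n : ℕ) → MOp n} (h : Small U₂ U z) (K : ℝ) (hK : 0 ≤ K)
    (hle : ∀ j n, hs (z' j n) ≤ K * hs (z j n)) : Small U₂ U z' := by
  intro ε hε
  filter_upwards [h (ε / (K + 1)) (by positivity)] with p hp
  have h1 : hs (z' p.1 p.2) / (p.2 : ℝ) ≤ K * (hs (z p.1 p.2) / (p.2 : ℝ)) := by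
    rw [← mul_div_assoc]
    exact div_le_div_of_nonneg_right (hle _ _) (Nat.cast_nonneg _)
  rw [lt_div_iff₀ (by positivity)] at hp
  have h2 : 0 ≤ hs (z p.1 p.2) / (p.2 : ℝ) := div_nonneg (hs_nonneg _) (Nat.cast_nonneg _)
  nlinarith

theorem Small.add {z z' : J → (n : ℕ) → MOp n} (h : Small U₂ U z) (h' : Small U₂ U z') :
    Small U₂ U (z + z') := by
  intro ε hε
  filter_upwards [h (ε / 4) (by positivity), h' (ε / 4) (by positivity)] with p hp hp'
  have h1 : hs ((z + z') p.1 p.2) ≤ 2 * hs (z p.1 p.2) + 2 * hs (z' p.1 p.2) := by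
    rw [hs_eq, hs_eq, hs_eq]
    change nsq (mat (z p.1 p.2 + z' p.1 p.2)) ≤ _
    rw [map_add]
    exact nsq_add_le _ _
  have h2 := div_le_div_of_nonneg_right h1 (Nat.cast_nonneg (α := ℝ) p.2)
  rw [add_div, mul_div_assoc, mul_div_assoc] at h2
  linarith

theorem Small.neg {z : J → (n : ℕ) → MOp n} (h : Small U₂ U z) : Small U₂ U (-z) :=
  h.of_le 1 zero_le_one fun j n => by
    rw [hs_eq, hs_eq, one_mul]
    change nsq (mat (-z j n)) ≤ _
    rw [map_neg, nsq_neg]

theorem Small.star {z : J → (n : ℕ) → MOp n} (h : Small U₂ U z) : Small U₂ U (star z) :=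
  h.of_le 1 zero_le_one fun j n => by
    rw [hs_eq, hs_eq, one_mul]
    change nsq (mat (Star.star (z j n))) ≤ _
    rw [map_star, Matrix.star_eq_conjTranspose, nsq_star]

theorem Small.mul_left {y z : J → (n : ℕ) → MOp n} (hy : BM y) (h : Small U₂ U z) :
    Small U₂ U (y * z) := by
  obtain ⟨C, hC⟩ := hy
  exact h.of_le (C ^ 2) (sq_nonneg C) fun j n => hs_mul _ _ (hC j n)

theorem BM.star {y : J → (n : ℕ) → MOp n} (hy : BM y) : BM (star y) := by
  obtain ⟨C, hC⟩ := hy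
  exact ⟨C, fun j n => (norm_star (y j n)).le.trans (hC j n)⟩

theorem Small.mul_right {y z : J → (n : ℕ) → MOp n} (hy : BM y) (h : Small U₂ U z) :
    Small U₂ U (z * y) := by
  have := (Small.mul_left hy.star h.star).star
  rwa [star_mul, star_star, star_star] at this

theorem not_small {z : J → (n : ℕ) → MOp n} (h : ¬ Small U₂ U z) :
    ∃ c : ℝ, 0 < c ∧ ∀ᶠ p in (U₂ : Filter J).curry (U : Filter ℕ), c ≤ hs (z p.1 p.2) / (p.2 : ℝ) := by
  by_contra hc
  apply h
  intro ε hε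
  rw [eventually_curry_iff]
  by_contra h1
  refine hc ⟨ε, hε, ?_⟩
  rw [eventually_curry_iff]
  filter_upwards [Ultrafilter.eventually_not.2 h1] with j hj
  filter_upwards [Ultrafilter.eventually_not.2 hj] with n hn
  exact not_lt.1 hn

end small

/-- bounded operators on the square summable functions on `G` -/
abbrev Op (G : Type) : Type := lp (fun _ : G => ℂ) 2 →L[ℂ] lp (fun _ : G => ℂ) 2

/-- the group von Neumann algebra -/
def LG (G : Type) [Group G] : Set (Op G) := LGen fun (f : lp (fun _ : G => ℂ) 2) (h : G) => f h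

open Classical in
/-- the point mass at the identity -/
noncomputable def delta (G : Type) [Group G] : lp (fun _ : G => ℂ) 2 :=
  lp.single 2 (1 : G) (1 : ℂ)

section reg

variable {G : Type} [Group G]

/-- left translation as a linear isometry -/
noncomputable def lamI (g : G) : lp (fun _ : G => ℂ) 2 →ₗᵢ[ℂ] lp (fun _ : G => ℂ) 2 where
  toFun := fun f => ⟨fun h => f (g⁻¹ * h), by
    have h1 := (lp.memℓp f).summable (by norm_num)
    refine memℓp_gen ?_
    exact ((Equiv.mulLeft g⁻¹).summable_iff (f := fun h => ‖f h‖ ^ (2 : ENNReal).toReal)).2 h1⟩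
  map_add' := fun f g => by ext h; rfl
  map_smul' := fun c f => by ext h; rfl
  norm_map' := fun f => by
    have h1 : (0 : ℝ) < (2 : ENNReal).toReal := by norm_num
    rw [lp.norm_eq_tsum_rpow h1, lp.norm_eq_tsum_rpow h1]
    congr 1
    exact (Equiv.mulLeft g⁻¹).tsum_eq (fun h => ‖f h‖ ^ (2 : ENNReal).toReal)

/-- left translation -/
noncomputable def lam (g : G) : Op G := (lamI g).toContinuousLinearMap

theorem lam_apply (g : G) (f : lp (fun _ : G => ℂ) 2) (h : G) : lam g f h = f (g⁻¹ * h) := rfl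

theorem lam_mul (g h : G) : lam (g * h) = lam g * lam h := by
  ext f x
  simp only [ContinuousLinearMap.mul_apply, lam_apply, mul_inv_rev, mul_assoc]

theorem lam_one : lam (1 : G) = 1 := by
  ext f x
  simp [lam_apply]

theorem lam_star (g : G) : star (lam g) = lam g⁻¹ := by
  have h : star (lam g) * lam g = 1 :=
    (ContinuousLinearMap.norm_map_iff_adjoint_comp_self (lam g)).1 fun x => (lamI g).norm_map x
  calc star (lam g) = star (lam g) * (lam g * lam g⁻¹) := by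
        rw [← lam_mul, mul_inv_cancel, lam_one, mul_one]
    _ = lam g⁻¹ := by rw [← mul_assoc, h, one_mul]

theorem lam_BN {I : Type u} (g : G) : BN (LG G) (fun _ : I => lam g) :=
  ⟨fun _ => Set.subset_centralizer_centralizer ⟨g, lam_apply g⟩,
    1, fun _ => (lamI g).norm_toContinuousLinearMap_le⟩

theorem lam_ne {I : Type u} (U₁ : Ultrafilter I) {g h : G} (hne : g ≠ h) :
    ¬ EqN (delta G) U₁ (fun _ => lam g) (fun _ => lam h) := by
  classical
  intro H
  obtain ⟨i, hi⟩ := (H 1 one_pos).exists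
  refine absurd hi (not_lt.2 (le_trans (le_of_eq ?_) (lp.norm_apply_le_norm (by norm_num) _ g)))
  have h1 : h⁻¹ * g ≠ 1 := fun e => hne (inv_mul_eq_one.1 e).symm
  rw [delta, ContinuousLinearMap.sub_apply, lp.coeFn_sub, Pi.sub_apply, lam_apply, lam_apply,
    inv_mul_cancel, lp.single_apply_self, lp.single_apply_ne _ _ _ h1]
  simp

end reg

theorem hyp_of_iso {G G₀ : Type} [Group G] [Group G₀] (f : G₀ →* G) (hf : Function.Injective f)
    {I : Type u} {J : Type v} (U₁ : Ultrafilter I) (U₂ : Ultrafilter J) (U : Ultrafilter ℕ)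
    (hU : (U : Filter ℕ) ≤ cofinite) (H : IsoLG G U₁ U₂ U) : IsHyp G₀ := by
  classical
  change Iso (LG G) (delta G) U₁ U₂ U at H
  obtain ⟨Φ, ⟨hB, hE, hS⟩, -, hM, hT, -⟩ := H
  let x : G → I → Op G := fun g _ => lam g
  have hx : ∀ g, BN (LG G) (x g) := fun g => lam_BN g
  let y : G → J → (n : ℕ) → MOp n := fun g => Φ (x g)
  have hy : ∀ g, BM (y g) := fun g => hB _ (hx g)
  have xm : ∀ g h, x (g * h) = x g * x h := fun g h => funext fun _ => lam_mul g h
  have s1 : ∀ g h, Small U₂ U (y g * y h - y (g * h)) := fun g h => by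
    have := ((eqM_iff _ _).1 (hM _ _ (hx g) (hx h))).neg
    rwa [neg_sub, ← xm] at this
  have s2 : Small U₂ U (y 1 - 1) := by
    obtain ⟨z, hz, e⟩ := hS 1 ⟨1, fun j n => ContinuousLinearMap.norm_id_le⟩
    have a1 := (eqM_iff _ _).1 e
    have a2 := (eqM_iff _ _).1 (hM _ _ (hx 1) hz)
    have e1 : x 1 * z = z := by
      funext i
      change lam 1 * z i = z i
      rw [lam_one, one_mul]
    rw [e1] at a2
    have := (a1.add a2.neg).add (Small.mul_left (hy 1) a1).neg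
    have id1 : ∀ a b : J → (n : ℕ) → MOp n, a - 1 + -(a - b * a) + -(b * (a - 1)) = b - 1 :=
      fun a b => by rw [mul_sub, mul_one]; abel
    exact id1 (Φ z) (y 1) ▸ this
  have s3 : ∀ g, Small U₂ U (star (y g) * y g - 1) := fun g => by
    have a1 := (eqM_iff _ _).1 (hT _ (hx g))
    have e1 : star (x g) = x g⁻¹ := funext fun _ => lam_star g
    rw [e1] at a1
    have a2 := s1 g⁻¹ g
    rw [inv_mul_cancel] at a2
    have := ((Small.mul_right (hy g) a1).neg.add a2).add s2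
    have id2 : ∀ a b c d : J → (n : ℕ) → MOp n,
        -((a - b) * c) + (a * c - d) + (d - 1) = b * c - 1 :=
      fun a b c d => by rw [sub_mul]; abel
    exact id2 (y g⁻¹) (star (y g)) (y g) (y 1) ▸ this
  have s4 : ∀ g h : G₀, ∃ c : ℝ, 0 < c ∧ ∀ᶠ p in (U₂ : Filter J).curry (U : Filter ℕ), g ≠ h →
      c ≤ hs ((y (f g) - y (f h)) p.1 p.2) / (p.2 : ℝ) := fun g h => by
    by_cases e : g = h
    · exact ⟨1, one_pos, Eventually.of_forall fun _ c => (c e).elim⟩
    · obtain ⟨c, hc, h1⟩ := not_small (U₂ := U₂) (U := U) (z := y (f g) - y (f h)) fun hs =>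
        lam_ne U₁ (hf.ne e) ((hE _ _ (hx _) (hx _)).2 ((eqM_iff _ _).2 hs))
      exact ⟨c, hc, h1.mono fun _ a _ => a⟩
  choose c hc0 hc using s4
  choose C hC using hy
  refine hyp_of_Q fun W => ?_
  obtain ⟨c₀, hc₀, hc₁, hc₂⟩ : ∃ c₀ : ℝ, 0 < c₀ ∧ c₀ ≤ 1 ∧ ∀ g ∈ W, ∀ h ∈ W, c₀ ≤ c g h := by
    have : ∀ᶠ t in nhdsWithin (0 : ℝ) (Set.Ioi 0), 0 < t ∧ t ≤ 1 ∧ ∀ g ∈ W, ∀ h ∈ W, t ≤ c g h := by
      refine Eventually.and self_mem_nhdsWithin (Eventually.filter_mono nhdsWithin_le_nhds ?_)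
      refine Eventually.and (eventually_le_nhds one_pos) ?_
      simp only [eventually_all_finset]
      exact fun g _ h _ => eventually_le_nhds (hc0 g h)
    exact this.exists
  refine ⟨1 - c₀ / 32, by linarith, by linarith, Q_of W c₀ (∑ g ∈ W, C (f g) ^ 2) hc₀ hc₁
    (Finset.sum_nonneg fun _ _ => sq_nonneg _) fun η hη => ?_⟩
  have hn : ∀ᶠ p in (U₂ : Filter J).curry (U : Filter ℕ), 1 ≤ p.2 := by
    rw [eventually_curry_iff]
    refine Eventually.of_forall fun j => hU ?_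
    rw [Nat.cofinite_eq_atTop]
    exact eventually_ge_atTop 1
  have all : ∀ᶠ p in (U₂ : Filter J).curry (U : Filter ℕ), 1 ≤ p.2 ∧
      hs ((y 1 - 1) p.1 p.2) / (p.2 : ℝ) < η ∧ ∀ g ∈ W,
      hs ((star (y (f g)) * y (f g) - 1) p.1 p.2) / (p.2 : ℝ) < η ∧ ∀ h ∈ W,
      hs ((star (y (f g * f h)) * y (f g * f h) - 1) p.1 p.2) / (p.2 : ℝ) < η ∧
      hs ((y (f g) * y (f h) - y (f g * f h)) p.1 p.2) / (p.2 : ℝ) < η ∧
      (g ≠ h → c g h ≤ hs ((y (f g) - y (f h)) p.1 p.2) / (p.2 : ℝ)) := by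
    refine hn.and ((s2 η hη).and ?_)
    rw [eventually_all_finset]
    refine fun g _ => (s3 _ η hη).and ?_
    rw [eventually_all_finset]
    exact fun h _ => (s3 _ η hη).and ((s1 _ _ η hη).and (hc g h))
  rw [eventually_curry_iff] at all
  obtain ⟨j, hj⟩ := all.exists
  obtain ⟨n, h1, h2, h3⟩ := hj.exists
  simp only at h1 h2 h3
  have hn' : (0 : ℝ) < n := by exact_mod_cast h1
  simp only [div_lt_iff₀ hn', le_div_iff₀ hn', hs_eq, Pi.sub_apply, Pi.mul_apply, Pi.star_apply,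
    Pi.one_apply, map_sub, map_mul, map_one, map_star, Matrix.star_eq_conjTranspose] at h2 h3
  refine ⟨n, fun g => mat (y (f g) j n), h1, by simpa only [map_one] using h2, fun g hg =>
    ⟨fun z => ?_, (h3 g hg).1, fun h hh => ?_⟩⟩
  · obtain ⟨T, rfl⟩ : ∃ T, mat (n := n) T = z := ⟨mat.symm z, (mat (n := n)).apply_symm_apply z⟩
    beta_reduce
    rw [← map_mul, ← hs_eq, ← hs_eq]
    refine (hs_mul _ _ (hC (f g) j n)).trans (mul_le_mul_of_nonneg_right ?_ (hs_nonneg _))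
    exact Finset.single_le_sum (f := fun g => C (f g) ^ 2) (fun _ _ => sq_nonneg _) hg
  · obtain ⟨a1, a2, a3⟩ := (h3 g hg).2 h hh
    simp only [map_mul f]
    exact ⟨a1, a2, fun hne =>
      (mul_le_mul_of_nonneg_right (hc₂ g hg h hh) hn'.le).trans (a3 hne)⟩

end Pool.Agent.H920Z.PC
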